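import Mathlib

namespace Pool.Agent.H.MP_04ddd8_lc

open Set Cardinal

variable {W : Type} [LinearOrder W] [WellFoundedLT W]

/-- sets carrying a countable-to-one regressive map -/
def J (Z : Set W) : Prop :=
  ∃ f : W → W, (∀ x ∈ Z, f x < x) ∧ ∀ y, (Z ∩ f ⁻¹' {y}).Countable

omit [WellFoundedLT W] in
theorem J.mono {Z Z' : Set W} (h : J Z) (hs : Z' ⊆ Z) : J Z' := by
  obtain ⟨f, h1, h2⟩ := h
  exact ⟨f, fun x hx => h1 x (hs hx), fun y => (h2 y).mono (inter_subset_inter_left _ hs)⟩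

omit [WellFoundedLT W] in
theorem J_empty : J (∅ : Set W) := ⟨id, by simp, by simp⟩

omit [WellFoundedLT W] in
theorem J_iUnion {Z : ℕ → Set W} (h : ∀ n, J (Z n)) : J (⋃ n, Z n) := by
  classical
  choose f h1 h2 using h
  let g : W → W := fun x => if hx : ∃ n, x ∈ Z n then f hx.choose x else x
  refine ⟨g, fun x hx => ?_, fun y => ?_⟩
  · have hx' : ∃ n, x ∈ Z n := mem_iUnion.1 hx
    simp only [g, dif_pos hx']
    exact h1 _ x hx'.choose_spec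
  · refine (countable_iUnion fun n => h2 n y).mono ?_
    rintro x ⟨hx, hy⟩
    have hx' : ∃ n, x ∈ Z n := mem_iUnion.1 hx
    refine mem_iUnion.2 ⟨hx'.choose, hx'.choose_spec, ?_⟩
    simpa only [mem_preimage, g, dif_pos hx'] using hy

theorem least_out {U : Set W} (h : #U < #W) : ∃ x, x ∉ U ∧ Iio x ⊆ U := by
  have hne : Uᶜ.Nonempty := by
    rw [nonempty_compl]
    rintro rfl
    simp at h
  refine ⟨wellFounded_lt.min _ hne, wellFounded_lt.min_mem _ hne, fun y hy => ?_⟩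
  by_contra hn
  exact wellFounded_lt.not_lt_min Uᶜ hn hy

omit [LinearOrder W] [WellFoundedLT W] in
theorem iUnion_le {ι : Type} {κ : Cardinal.{0}} (hκ : ℵ₀ ≤ κ) (hι : #ι ≤ κ) (A : ι → Set W)
    (hA : ∀ i, #(A i) ≤ κ) : #(⋃ i, A i) ≤ κ := by
  refine mk_iUnion_le_sum_mk.trans ((sum_le_sum _ (fun _ => κ) hA).trans ?_)
  rw [sum_const']
  exact (mul_le_mul_left hι κ).trans (mul_eq_self hκ).le

theorem no_regressive {κ : Cardinal.{0}} (hκ : ℵ₀ ≤ κ) (hW : κ < #W) (ξ : W)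
    (hξ : #(Iio ξ) ≤ κ) (f : W → W) (h1 : ∀ x, ξ < x → #(Iio x) ≤ κ → f x < x)
    (h2 : ∀ y, #{x | ξ < x ∧ #(Iio x) ≤ κ ∧ f x = y} ≤ κ) : False := by
  let U : ℕ → Set W := fun n => Nat.rec (Iic ξ)
    (fun _ S => ⋃ y : S, {x | ξ < x ∧ #(Iio x) ≤ κ ∧ f x = y}) n
  have hU : ∀ n, #(↥(U n)) ≤ κ := by
    intro n
    induction n with
    | zero =>
      change #(Iic ξ) ≤ κ
      rw [← Iio_insert]
      exact mk_insert_le.trans (add_le_of_le hκ hξ (one_le_aleph0.trans hκ))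
    | succ n ih => exact iUnion_le hκ ih _ fun y => h2 y.1
  have hU' : #(⋃ n, U n) ≤ κ := iUnion_le hκ (by simpa using hκ) U hU
  obtain ⟨x, hx1, hx2⟩ := least_out (hU'.trans_lt hW)
  have h3 : ξ < x := by
    by_contra hn
    exact hx1 (mem_iUnion.2 ⟨0, not_lt.1 hn⟩)
  have h4 : #(Iio x) ≤ κ := (mk_le_mk_of_subset hx2).trans hU'
  obtain ⟨n, hn⟩ := mem_iUnion.1 (hx2 (h1 x h3 h4))
  exact hx1 (mem_iUnion.2 ⟨n + 1, mem_iUnion.2 ⟨⟨f x, hn⟩, h3, h4, rfl⟩⟩)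

theorem ulam (p : W) (hκ : ℵ₀ ≤ #(Iio p)) (hW : #(Iio p) < #W) :
    ∃ T : Set (Set W), #(Iio p) < #T ∧ (∀ t ∈ T, ¬ J t ∧ ∀ x ∈ t, #(Iio x) = #(Iio p)) ∧
      T.PairwiseDisjoint id := by
  classical
  set κ := #(Iio p) with hκe
  have hne : Nonempty (Iio p) := by
    rw [← mk_ne_zero_iff]
    exact (aleph0_pos.trans_le hκ).ne'
  have hc : ∀ α : W, ∃ c : W → Iio p, #(Iio α) ≤ κ → InjOn c (Iio α) := fun α => by
    by_cases h : #(Iio α) ≤ κ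
    · obtain ⟨e⟩ := (Cardinal.le_def _ _).1 h
      refine ⟨fun x => if h : x < α then e ⟨x, h⟩ else Classical.arbitrary _,
        fun _ x hx y hy h => ?_⟩
      simp only [dif_pos (mem_Iio.1 hx), dif_pos (mem_Iio.1 hy)] at h
      exact congrArg Subtype.val (e.injective h)
    · exact ⟨fun _ => Classical.arbitrary _, fun h' => absurd h' h⟩
  choose c hc using hc
  let A : W → Iio p → Set W := fun ξ η => {α | ξ < α ∧ #(Iio α) ≤ κ ∧ c α ξ = η}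
  let B : Set W := {ξ | p ≤ ξ ∧ #(Iio ξ) ≤ κ}
  have hA : ∀ ξ : B, ∃ η, ¬ J (A ξ η) := by
    intro ξ
    by_contra H
    push Not at H
    choose f h1 h2 using H
    refine no_regressive hκ hW ξ.1 ξ.2.2 (fun α => f (c α ξ) α)
      (fun x hx hx' => h1 _ x ⟨hx, hx', rfl⟩) fun y => ?_
    refine le_trans (mk_le_mk_of_subset ?_) (iUnion_le hκ le_rfl
      (fun η => A ξ η ∩ f η ⁻¹' {y}) fun η => ?_)
    · rintro x ⟨hx1, hx2, hx3⟩
      exact mem_iUnion.2 ⟨c x ξ, ⟨hx1, hx2, rfl⟩, hx3⟩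
    · exact (le_aleph0_iff_set_countable.2 (h2 η y)).trans hκ
  choose η hη using hA
  have hB : κ < #B := by
    by_contra hn
    have h1 : #(Iio p ∪ B : Set W) ≤ κ :=
      (mk_union_le _ _).trans (add_le_of_le hκ le_rfl (not_lt.1 hn))
    obtain ⟨x, hx1, hx2⟩ := least_out (h1.trans_lt hW)
    refine hx1 ?_
    by_cases h : x < p
    · exact Or.inl h
    · exact Or.inr ⟨not_lt.1 h, (mk_le_mk_of_subset hx2).trans h1⟩
  obtain ⟨a, ha⟩ := infinite_pigeonhole_card_lt η hB (hκ.trans hB.le)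
  have hdis : ∀ ξ ξ' : W, ξ ≠ ξ' → Disjoint (A ξ a) (A ξ' a) := by
    intro ξ ξ' h
    rw [Set.disjoint_left]
    rintro α ⟨h1, h2, h3⟩ ⟨h4, -, h5⟩
    exact h (hc α h2 h1 h4 (h3.trans h5.symm))
  have hpos : ∀ ξ : η ⁻¹' {a}, ¬ J (A ξ.1 a) := fun ξ => by
    have := hη ξ.1
    rwa [show η ξ.1 = a from ξ.2] at this
  refine ⟨range fun ξ : η ⁻¹' {a} => A ξ.1 a, ?_, ?_, ?_⟩
  · rw [mk_range_eq]
    · exact ha
    · intro ξ ξ' h
      by_contra hn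
      have hd := hdis ξ.1.1 ξ'.1.1 fun h => hn (Subtype.ext (Subtype.ext h))
      have h' : A ξ.1 a = A ξ'.1 a := h
      rw [← h', disjoint_self] at hd
      apply hpos ξ
      rw [hd]
      exact J_empty
  · rintro _ ⟨ξ, rfl⟩
    refine ⟨hpos ξ, fun x hx => le_antisymm hx.2.1 ?_⟩
    exact mk_le_mk_of_subset (Iio_subset_Iio (ξ.1.2.1.trans hx.1.le))
  · rintro _ ⟨ξ, rfl⟩ _ ⟨ξ', rfl⟩ h
    refine hdis _ _ fun h' => h ?_
    simp only [h']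

theorem many (hW : ℵ₀ < #W) (h1 : ∀ p : W, #(Iio p) < #W)
    (h2 : ∀ μ, μ < #W → ∃ p : W, μ ≤ #(Iio p)) :
    ∃ T : Set (Set W), #W ≤ #T ∧ (∀ t ∈ T, ¬ J t) ∧ T.PairwiseDisjoint id := by
  classical
  have : ∀ κ : Cardinal.{0}, ∃ T : Set (Set W), ((∃ p : W, κ = #(Iio p)) → ℵ₀ ≤ κ → κ < #T) ∧
      (∀ t ∈ T, ¬ J t ∧ ∀ x ∈ t, #(Iio x) = κ) ∧ T.PairwiseDisjoint id := by
    intro κ
    by_cases h : (∃ p : W, κ = #(Iio p)) ∧ ℵ₀ ≤ κ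
    · obtain ⟨⟨p, rfl⟩, h⟩ := h
      obtain ⟨T, hT⟩ := ulam p h (h1 p)
      exact ⟨T, fun _ _ => hT.1, hT.2⟩
    · exact ⟨∅, fun a b => absurd ⟨a, b⟩ h, by simp, by simp⟩
  choose T hT1 hT2 hT3 using this
  refine ⟨⋃ κ, T κ, ?_, ?_, ?_⟩
  · by_contra hn
    obtain ⟨p, hp⟩ := h2 _ (max_lt (not_le.1 hn) hW)
    have h3 := hT1 _ ⟨p, rfl⟩ ((le_max_right _ _).trans hp)
    have h4 : #(T #(Iio p)) ≤ #(⋃ κ, T κ) := mk_le_mk_of_subset (subset_iUnion T _)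
    exact absurd (h3.trans_le (h4.trans ((le_max_left _ _).trans hp))) (lt_irrefl _)
  · intro t ht
    obtain ⟨κ, hκ⟩ := mem_iUnion.1 ht
    exact (hT2 κ t hκ).1
  · intro t ht t' ht' h
    obtain ⟨κ, hκ⟩ := mem_iUnion.1 ht
    obtain ⟨κ', hκ'⟩ := mem_iUnion.1 ht'
    by_cases e : κ = κ'
    · subst e
      exact hT3 κ hκ hκ' h
    · refine Set.disjoint_left.2 fun x hx hx' => e ?_
      exact ((hT2 κ t hκ).2 x hx).symm.trans ((hT2 κ' t' hκ').2 x hx')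

theorem diag (hW : ℵ₀ < #W) (h1 : ∀ p : W, #(Iio p) < #W)
    (h2 : ∀ μ, μ < #W → ∃ p : W, μ ≤ #(Iio p)) (C : Set (Set W)) (hC : #C ≤ #W) :
    ∃ X : Set W, ∀ B ∈ C, ¬ J (symmDiff X B) := by
  obtain ⟨T, hT1, hT2, hT3⟩ := many hW h1 h2
  obtain ⟨e⟩ := (Cardinal.le_def _ _).1 (hC.trans hT1)
  refine ⟨⋃ B : C, (e B).1 \ B.1, fun B hB h => hT2 _ (e ⟨B, hB⟩).2 (h.mono fun x hx => ?_)⟩
  by_cases hxB : x ∈ B
  · refine Or.inr ⟨hxB, fun hx' => ?_⟩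
    obtain ⟨B', hB'⟩ := mem_iUnion.1 hx'
    by_cases e' : B' = ⟨B, hB⟩
    · subst e'
      exact hB'.2 hxB
    · have := hT3 (e B').2 (e ⟨B, hB⟩).2 fun h => e' (e.injective (Subtype.ext h))
      exact Set.disjoint_left.1 this hB'.1 hx
  · exact Or.inl ⟨mem_iUnion.2 ⟨⟨B, hB⟩, hx, hxB⟩, hxB⟩

omit [WellFoundedLT W] in
theorem selector (P : Set (Set W)) (hP : Setoid.IsPartition P) (h : ∀ p ∈ P, p.Nontrivial) :
    ∃ S, J S ∧ ∀ p ∈ P, ∃ x, S ∩ p = {x} := by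
  classical
  have : ∀ p : P, ∃ x ∈ p.1, ∃ y ∈ p.1, y < x := fun p => by
    obtain ⟨x, hx, y, hy, hxy⟩ := h p.1 p.2
    rcases lt_or_gt_of_ne hxy with h | h
    · exact ⟨y, hy, x, hx, h⟩
    · exact ⟨x, hx, y, hy, h⟩
  choose s hs m hm hlt using this
  have uniq : ∀ (p q : P) x, x ∈ p.1 → x ∈ q.1 → p = q := fun p q x hp hq =>
    Subtype.ext ((hP.2 x).unique ⟨p.2, hp⟩ ⟨q.2, hq⟩)
  let f : W → W := fun x => if hx : ∃ p, s p = x then m hx.choose else x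
  have hf : ∀ p, f (s p) = m p := fun p => by
    have hx : ∃ q, s q = s p := ⟨p, rfl⟩
    simp only [f, dif_pos hx]
    congr 1
    exact uniq _ _ (s p) (by have := hs hx.choose; rwa [hx.choose_spec] at this) (hs p)
  refine ⟨range s, ⟨f, ?_, fun y => ?_⟩, fun p hp => ⟨s ⟨p, hp⟩, ?_⟩⟩
  · rintro _ ⟨p, rfl⟩
    rw [hf]
    exact hlt p
  · refine Set.Subsingleton.countable ?_
    rintro _ ⟨⟨p, rfl⟩, hp⟩ _ ⟨⟨q, rfl⟩, hq⟩
    rw [mem_preimage, hf, mem_singleton_iff] at hp hq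
    rw [uniq p q y (hp ▸ hm p) (hq ▸ hm q)]
  · ext x
    constructor
    · rintro ⟨⟨q, rfl⟩, hq⟩
      rw [uniq q ⟨p, hp⟩ _ (hs q) hq]
      rfl
    · rintro rfl
      exact ⟨⟨_, rfl⟩, hs ⟨p, hp⟩⟩

theorem ideal (α : Type) (hα : ℵ₀ < #α) : ∃ K : Set α → Prop, K ∅ ∧
    (∀ Z Z', K Z → Z' ⊆ Z → K Z') ∧ (∀ Z : ℕ → Set α, (∀ n, K (Z n)) → K (⋃ n, Z n)) ∧
    (∀ P : Set (Set α), Setoid.IsPartition P → (∀ p ∈ P, p.Nontrivial) →
      ∃ S, K S ∧ ∀ p ∈ P, ∃ x, S ∩ p = {x}) ∧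
    ∀ C : Set (Set α), #C ≤ #α → ∃ X : Set α, ∀ B ∈ C, ¬ K (symmDiff X B) := by
  obtain ⟨_, _, h⟩ := Cardinal.exists_ord_eq_type_lt α
  refine ⟨J, J_empty, fun _ _ => J.mono, fun _ => J_iUnion, selector,
    diag hα (fun p => mk_Iio_lt p h) fun μ hμ => ?_⟩
  have h1 : μ.ord < Ordinal.type (α := α) (· < ·) := h ▸ ord_lt_ord.2 hμ
  obtain ⟨p, hp⟩ := Ordinal.typein_surj _ h1
  refine ⟨p, ?_⟩
  have := Ordinal.card_typein (r := ((· < ·) : α → α → Prop)) p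
  rw [hp, card_ord] at this
  exact this.le

end Pool.Agent.H.MP_04ddd8_lc
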